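import Pool.Agent.helper21.KBR3.Chart

/-!
# MODULE A8 (`curv_comm`) of the Kähler domains project (MP_07cd05_gt)

The radial projection `x ↦ x / ‖x‖` turns identities which hold along the sphere into identities
on an open set; an intertwining relation `D𝒳 = 𝒳 Θ₁ - Θ₂ 𝒳` then intertwines the curvatures.
-/

noncomputable section

namespace KBR

open Set MeasureTheory Filter Topology
open scoped ContDiff RealInnerProductSpace

variable {n m : ℕ}

namespace CC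

lemma two_le : (2 : WithTop ℕ∞) ≤ ∞ := WithTop.coe_le_coe.mpr (le_top : (2 : ℕ∞) ≤ ⊤)

/-- symmetry of the second derivative for an intertwining relation -/
lemma intertwine {V A : Type*} [NormedAddCommGroup V] [NormedSpace ℝ V] [NormedRing A]
    [NormedAlgebra ℝ A] {X : V → A} {Θ₁ Θ₂ : V → V →L[ℝ] A} {p : V} (hX : ContDiffAt ℝ 2 X p)
    (h1 : DifferentiableAt ℝ Θ₁ p) (h2 : DifferentiableAt ℝ Θ₂ p)
    (h : ∀ᶠ x in 𝓝 p, ∀ k, fderiv ℝ X x k = X x * Θ₁ x k - Θ₂ x k * X x) (u v : V) :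
    X p * (fderiv ℝ Θ₁ p u v - fderiv ℝ Θ₁ p v u + (Θ₁ p u * Θ₁ p v - Θ₁ p v * Θ₁ p u)) =
    (fderiv ℝ Θ₂ p u v - fderiv ℝ Θ₂ p v u + (Θ₂ p u * Θ₂ p v - Θ₂ p v * Θ₂ p u)) * X p := by
  have hs : IsSymmSndFDerivAt ℝ X p := hX.isSymmSndFDerivAt (by simp)
  have hXd : DifferentiableAt ℝ X p := hX.differentiableAt (by simp)
  have hXf := hXd.hasFDerivAt
  have hp := h.self_of_nhds
  have hD : DifferentiableAt ℝ (fderiv ℝ X) p :=
    (hX.fderiv_right (m := 1) (by norm_num)).differentiableAt (by simp)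
  have key : ∀ a b : V, fderiv ℝ (fderiv ℝ X) p a b =
      (X p * Θ₁ p a - Θ₂ p a * X p) * Θ₁ p b + X p * fderiv ℝ Θ₁ p a b -
      (fderiv ℝ Θ₂ p a b * X p + Θ₂ p b * (X p * Θ₁ p a - Θ₂ p a * X p)) := by
    intro a b
    have e1 : HasFDerivAt (fun x => fderiv ℝ X x b)
        ((ContinuousLinearMap.apply ℝ A b).comp (fderiv ℝ (fderiv ℝ X) p)) p :=
      (ContinuousLinearMap.apply ℝ A b).hasFDerivAt.comp p hD.hasFDerivAt
    have t1 : HasFDerivAt (fun x => Θ₁ x b)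
        ((ContinuousLinearMap.apply ℝ A b).comp (fderiv ℝ Θ₁ p)) p :=
      (ContinuousLinearMap.apply ℝ A b).hasFDerivAt.comp p h1.hasFDerivAt
    have t2 : HasFDerivAt (fun x => Θ₂ x b)
        ((ContinuousLinearMap.apply ℝ A b).comp (fderiv ℝ Θ₂ p)) p :=
      (ContinuousLinearMap.apply ℝ A b).hasFDerivAt.comp p h2.hasFDerivAt
    have e2 := (hXf.mul' t1).sub (t2.mul' hXf)
    have e3 : (fun x => fderiv ℝ X x b) =ᶠ[𝓝 p] fun x => X x * Θ₁ x b - Θ₂ x b * X x := by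
      filter_upwards [h] with x hx using hx b
    have e4 := (e2.congr_of_eventuallyEq e3).unique e1
    have e5 := congrArg (fun L : V →L[ℝ] A => L a) e4
    simp only [sub_apply, add_apply, smul_apply, ContinuousLinearMap.comp_apply,
      ContinuousLinearMap.apply_apply, smul_eq_mul] at e5
    rw [← e5, hp a, op_smul_eq_mul, op_smul_eq_mul]
    abel
  have hsy := hs u v
  rw [key u v, key v u] at hsy
  rw [← sub_eq_zero] at hsy ⊢
  rw [← hsy]
  noncomm_ring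

/-- the Christoffel symbols as a map into operators -/
def chrL (G : E n → E n →L[ℝ] E n) (x : E n) : E n →L[ℝ] (E n →L[ℝ] E n) :=
  ((ContinuousLinearMap.compL ℝ (E n) (E n) (E n)) (G x).inverse).comp
    ((1 / 2 : ℝ) • (fderiv ℝ G x + (fderiv ℝ G x).flip - (adjL n).comp (fderiv ℝ G x).flip))

lemma chrL_apply (G : E n → E n →L[ℝ] E n) (x u : E n) : chrL G x u = chr G x u := rfl

lemma contDiff_flip {X V W U : Type*} [NormedAddCommGroup X] [NormedSpace ℝ X]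
    [NormedAddCommGroup V] [NormedSpace ℝ V] [NormedAddCommGroup W] [NormedSpace ℝ W]
    [NormedAddCommGroup U] [NormedSpace ℝ U] {k : WithTop ℕ∞} {f : X → V →L[ℝ] W →L[ℝ] U}
    (hf : ContDiff ℝ k f) : ContDiff ℝ k fun x => (f x).flip := by
  have h : IsBoundedLinearMap ℝ (fun g : V →L[ℝ] W →L[ℝ] U => g.flip) :=
    ⟨⟨fun _ _ => rfl, fun _ _ => rfl⟩, 1, one_pos, fun g => by
      rw [ContinuousLinearMap.opNorm_flip, one_mul]⟩
  have h' : ContDiff ℝ k (fun g : V →L[ℝ] W →L[ℝ] U => g.flip) :=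
    IsBoundedLinearMap.contDiff (𝕜 := ℝ) (E := V →L[ℝ] W →L[ℝ] U) (F := W →L[ℝ] V →L[ℝ] U) h
  exact h'.comp hf

lemma chrL_contDiffAt {G : E n → E n →L[ℝ] E n} (hG : IsMetric G) {x : E n} (hx : x ∈ M n) :
    ContDiffAt ℝ ∞ (chrL G) x := by
  have h1 := hG.contDiffAt_inv hx
  have h2 : ContDiff ℝ ∞ (fderiv ℝ G) := hG.smooth.fderiv_right (m := ∞) (by simp)
  have h3 : ContDiff ℝ ∞ fun y => (fderiv ℝ G y).flip :=
    contDiff_flip h2
  have h4 : ContDiff ℝ ∞ fun y => (adjL n).comp (fderiv ℝ G y).flip :=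
    contDiff_const.clm_comp h3
  have h6 : ContDiff ℝ ∞ (fun A : E n →L[ℝ] E n =>
      (ContinuousLinearMap.compL ℝ (E n) (E n) (E n)) A) :=
    ContinuousLinearMap.contDiff (F := (E n →L[ℝ] E n) →L[ℝ] (E n →L[ℝ] E n)) _
  have h5 : ContDiffAt ℝ ∞ (fun y => (ContinuousLinearMap.compL ℝ (E n) (E n) (E n))
      (G y).inverse) x := h6.contDiffAt.comp x h1
  exact h5.clm_comp (((h2.add h3).sub h4).const_smul (1 / 2 : ℝ)).contDiffAt

/-- radial projection -/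
def pr (x : E n) : E n := ‖x‖⁻¹ • x

lemma pr_norm {x : E n} (hx : x ≠ 0) : ‖pr x‖ = 1 := by
  rw [pr, norm_smul, norm_inv, norm_norm, inv_mul_cancel₀ (norm_ne_zero_iff.mpr hx)]

lemma pr_mem {x : E n} (hx : x ≠ 0) : pr x ∈ bM n := by simp [bM, pr_norm hx]

lemma pr_of_mem {x : E n} (hx : ‖x‖ = 1) : pr x = x := by simp [pr, hx]

lemma pr_contDiffAt {x : E n} (hx : x ≠ 0) : ContDiffAt ℝ ∞ (pr : E n → E n) x :=
  ((contDiffAt_norm ℝ hx).inv (norm_ne_zero_iff.mpr hx)).smul contDiffAt_id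

lemma pr_hasFDerivAt {x : E n} (hx : x ≠ 0) : HasFDerivAt (pr : E n → E n) (fderiv ℝ pr x) x :=
  ((pr_contDiffAt hx).differentiableAt (by simp)).hasFDerivAt

/-- the derivative of the radial projection is tangent to the sphere -/
lemma pr_tangent {x : E n} (hx : x ≠ 0) (k : E n) : ⟪pr x, fderiv ℝ pr x k⟫ = 0 := by
  have h1 := pr_hasFDerivAt hx
  have h2 := h1.inner ℝ h1
  have h3 : (fun y : E n => ⟪pr y, pr y⟫) =ᶠ[𝓝 x] fun _ => (1 : ℝ) := by
    filter_upwards [isOpen_ne.mem_nhds hx] with y hy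
    rw [real_inner_self_eq_norm_sq, pr_norm hy, one_pow]
  have h4 := h2.unique ((hasFDerivAt_const (1 : ℝ) x).congr_of_eventuallyEq h3)
  have h5 := congrArg (fun L : E n →L[ℝ] ℝ => L k) h4
  simp [fderivInnerCLM_apply] at h5
  rw [real_inner_comm (pr x) (fderiv ℝ pr x k)] at h5
  linarith

/-- at a point of the sphere, the derivative fixes tangent vectors -/
lemma pr_fix {p : E n} (hp : ‖p‖ = 1) {k : E n} (hk : ⟪p, k⟫ = 0) : fderiv ℝ pr p k = k := by
  have hp0 : p ≠ 0 := by intro h; simp [h] at hp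
  have h1 := pr_hasFDerivAt hp0
  have h2 : HasFDerivAt (fun y : E n => ‖y‖) (fderiv ℝ (fun y : E n => ‖y‖) p) p :=
    ((contDiffAt_norm ℝ hp0 (n := 1)).differentiableAt (by simp)).hasFDerivAt
  have h3 := h2.smul h1
  have h4 : (fun y : E n => ‖y‖ • pr y) = fun y => y := by
    funext y
    by_cases hy : y = 0
    · simp [hy]
    · rw [pr, smul_smul, mul_inv_cancel₀ (norm_ne_zero_iff.mpr hy), one_smul]
  have h5 : HasFDerivAt (fun y : E n => y)
      (‖p‖ • fderiv ℝ pr p + (fderiv ℝ (fun y : E n => ‖y‖) p).smulRight (pr p)) p := by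
    have h3' := h3
    rwa [show ((fun y : E n => ‖y‖) • pr) = fun y => y from h4] at h3'
  have h6 := congrArg (fun L : E n →L[ℝ] E n => L k) (h5.unique (hasFDerivAt_id p))
  simp [hp, pr_of_mem hp] at h6
  have h7 := congrArg (fun z => ⟪p, z⟫) h6
  simp only [inner_add_right, inner_smul_right, real_inner_self_eq_norm_sq, hp, hk] at h7
  have h8 := pr_tangent hp0 k
  rw [pr_of_mem hp] at h8
  rw [h8] at h7
  have h9 : fderiv ℝ (fun y : E n => ‖y‖) p k = 0 := by linarith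
  rw [h9, zero_smul, add_zero] at h6
  exact h6

/-- connection form of the sphere extended radially -/
def Th (G : E n → E n →L[ℝ] E n) (x : E n) : E n →L[ℝ] (E n →L[ℝ] E n) :=
  (chrL G (pr x)).comp (fderiv ℝ pr x)

lemma Th_contDiffAt {G : E n → E n →L[ℝ] E n} (hG : IsMetric G) {p : E n} (hp : p ∈ bM n) :
    ContDiffAt ℝ ∞ (Th G) p := by
  have hpn : ‖p‖ = 1 := by simpa [bM] using hp
  have hp0 : p ≠ 0 := by intro h; simp [h] at hpn
  have h1 : ContDiffAt ℝ ∞ (chrL G) (pr p) := by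
    rw [pr_of_mem hpn]; exact chrL_contDiffAt hG (bM_sub_M hp)
  have h2 : ContDiffAt ℝ ∞ (fun x => chrL G (pr x)) p := h1.comp p (pr_contDiffAt hp0)
  have h3 : ContDiffAt ℝ ∞ (fderiv ℝ (pr : E n → E n)) p :=
    (pr_contDiffAt hp0).fderiv_right (m := ∞) (by simp)
  exact h2.clm_comp h3

/-- the curvature of the radially extended connection is the curvature of the metric -/
lemma Th_curv {G : E n → E n →L[ℝ] E n} (hG : IsMetric G) {p : E n} (hp : p ∈ bM n)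
    {u v : E n} (hu : ⟪p, u⟫ = 0) (hv : ⟪p, v⟫ = 0) :
    fderiv ℝ (Th G) p u v - fderiv ℝ (Th G) p v u + (Th G p u * Th G p v - Th G p v * Th G p u) =
      curv G p u v := by
  have hpn : ‖p‖ = 1 := by simpa [bM] using hp
  have hp0 : p ≠ 0 := by intro h; simp [h] at hpn
  have hpp : pr p = p := pr_of_mem hpn
  have h0 : DifferentiableAt ℝ (chrL G) p :=
    (chrL_contDiffAt hG (bM_sub_M hp)).differentiableAt (by simp)
  have h1 : HasFDerivAt (chrL G) (fderiv ℝ (chrL G) p) (pr p) := by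
    rw [hpp]; exact h0.hasFDerivAt
  have h2 := HasFDerivAt.comp (g := chrL G) p h1 (pr_hasFDerivAt hp0)
  have h3 : HasFDerivAt (fderiv ℝ (pr : E n → E n)) (fderiv ℝ (fderiv ℝ pr) p) p :=
    (((pr_contDiffAt hp0).fderiv_right (m := 1) (by norm_num; exact two_le)).differentiableAt
      (by simp)).hasFDerivAt
  have h4 := h2.clm_comp h3
  have hs : IsSymmSndFDerivAt ℝ (pr : E n → E n) p :=
    (pr_contDiffAt hp0).isSymmSndFDerivAt (by simp [two_le])
  have key : ∀ a b : E n, ⟪p, a⟫ = 0 → ⟪p, b⟫ = 0 → fderiv ℝ (Th G) p a b =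
      fderiv ℝ (chrL G) p a b + chrL G p (fderiv ℝ (fderiv ℝ pr) p a b) := by
    intro a b ha hb
    have h5 : HasFDerivAt (Th G) _ p := h4
    rw [h5.fderiv]
    simp [hpp, pr_fix hpn ha, pr_fix hpn hb, add_comm]
  have hc : ∀ a b : E n, fderiv ℝ (fun y => chr G y b) p a = fderiv ℝ (chrL G) p a b := by
    intro a b
    have e1 : HasFDerivAt (fun x => chrL G x b) _ p :=
      h0.hasFDerivAt.clm_apply (hasFDerivAt_const b p)
    have e2 : fderiv ℝ (fun x => chrL G x b) p = _ := e1.fderiv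
    show fderiv ℝ (fun x => chrL G x b) p a = _
    rw [e2]
    simp
  have hT : ∀ a : E n, ⟪p, a⟫ = 0 → Th G p a = chr G p a := by
    intro a ha
    rw [Th, ContinuousLinearMap.comp_apply, pr_fix hpn ha, hpp, chrL_apply]
  rw [key u v hu hv, key v u hv hu, hT u hu, hT v hv, hs u v, curv, hc, hc]
  simp only [ContinuousLinearMap.mul_def]
  abel

/-! ### The map `F` -/

lemma kap_pos {G : E n → E n →L[ℝ] E n} (hG : IsMetric G) {a : E n} (ha : a ∈ bM n) :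
    0 < kap G a := by
  have han : ‖a‖ = 1 := by simpa [bM] using ha
  have ha0 : a ≠ 0 := by intro h; simp [h] at han
  exact Real.sqrt_pos.mpr (hG.inv_pos (bM_sub_M ha) a ha0)

lemma inner_nu {G : E n → E n →L[ℝ] E n} (hG : IsMetric G) {a : E n} (ha : a ∈ bM n) :
    ⟪a, nu G a⟫ = kap G a := by
  have h1 := kap_pos hG ha
  have h2 : kap G a ^ 2 = ⟪(G a).inverse a, a⟫ :=
    Real.sq_sqrt (hG.inv_nonneg (bM_sub_M ha) a)
  rw [nu, inner_smul_right, real_inner_comm, ← h2]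
  field_simp

lemma Fb_left {G₁ G₂ : E n → E n →L[ℝ] E n} (h₁ : IsMetric G₁) (h₂ : IsMetric G₂)
    {a : E n} (ha : a ∈ bM n) (v : E n) : Fb G₂ G₁ a (Fb G₁ G₂ a v) = v := by
  have k1 := kap_pos h₁ ha
  have k2 := kap_pos h₂ ha
  have e1 : ⟪a, Fb G₁ G₂ a v⟫ = kap G₂ a * (kap G₁ a)⁻¹ * ⟪a, v⟫ := by
    rw [Fb_apply, inner_add_right, inner_smul_right, inner_sub_right, inner_nu h₁ ha,
      inner_nu h₂ ha]
    field_simp
    ring
  rw [Fb_apply G₂ G₁, e1, Fb_apply]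
  have e2 : (kap G₂ a)⁻¹ * (kap G₂ a * (kap G₁ a)⁻¹ * ⟪a, v⟫) = (kap G₁ a)⁻¹ * ⟪a, v⟫ := by
    field_simp
  rw [e2]
  module

lemma kap_contDiffAt {G : E n → E n →L[ℝ] E n} (hG : IsMetric G) {a : E n} (ha : a ∈ bM n) :
    ContDiffAt ℝ ∞ (kap G) a := by
  have han : ‖a‖ = 1 := by simpa [bM] using ha
  have ha0 : a ≠ 0 := by intro h; simp [h] at han
  have h1 : ContDiffAt ℝ ∞ (fun x => ⟪(G x).inverse x, x⟫) a :=
    ((hG.contDiffAt_inv (bM_sub_M ha)).clm_apply contDiffAt_id).inner ℝ contDiffAt_id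
  exact h1.sqrt (hG.inv_pos (bM_sub_M ha) a ha0).ne'

lemma nu_contDiffAt {G : E n → E n →L[ℝ] E n} (hG : IsMetric G) {a : E n} (ha : a ∈ bM n) :
    ContDiffAt ℝ ∞ (nu G) a :=
  ((kap_contDiffAt hG ha).inv (kap_pos hG ha).ne').smul
    ((hG.contDiffAt_inv (bM_sub_M ha)).clm_apply contDiffAt_id)

lemma Fb_contDiffAt {G₁ G₂ : E n → E n →L[ℝ] E n} (h₁ : IsMetric G₁) (h₂ : IsMetric G₂)
    {a : E n} (ha : a ∈ bM n) : ContDiffAt ℝ ∞ (Fb G₁ G₂) a := by
  have h3 : ContDiffAt ℝ ∞ (fun x : E n => (kap G₁ x)⁻¹ • innerSL ℝ x) a :=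
    ((kap_contDiffAt h₁ ha).inv (kap_pos h₁ ha).ne').smul (innerSL ℝ).contDiff.contDiffAt
  exact contDiffAt_const.add (h3.smulRight ((nu_contDiffAt h₂ ha).sub (nu_contDiffAt h₁ ha)))

/-- derivative of a composition with the radial projection -/
lemma comp_pr {X : E n → E n →L[ℝ] E n} {x : E n} (hx : x ≠ 0)
    (hX : DifferentiableAt ℝ X (pr x)) (k : E n) :
    fderiv ℝ (fun y => X (pr y)) x k = fderiv ℝ X (pr x) (fderiv ℝ pr x k) := by
  have h1 : HasFDerivAt (fun y => X (pr y)) _ x := hX.hasFDerivAt.comp x (pr_hasFDerivAt hx)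
  rw [h1.fderiv]
  rfl

end CC

open CC in
/-- MODULE A8 (`curv_comm`): the transported complex structure commutes with the curvature. -/
theorem curv_comm {G₁ G₂ J₂ : E n → E n →L[ℝ] E n} (h₁ : IsMetric G₁)
    (h₂ : IsMetric G₂) (s₂ : ContDiff ℝ ∞ J₂)
    (hF : ∀ a ∈ bM n, ∀ u, ⟪a, u⟫ = 0 → ∀ v,
      fderiv ℝ (Fb G₁ G₂) a u v + chr G₂ a u (Fb G₁ G₂ a v) = Fb G₁ G₂ a (chr G₁ a u v))
    (p₂ : Par G₂ J₂) {p : E n} (hp : p ∈ bM n) {K : E n →L[ℝ] E n}
    (hK : ∀ v, Fb G₁ G₂ p (K v) = J₂ p (Fb G₁ G₂ p v)) {u v : E n} (hu : ⟪p, u⟫ = 0)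
    (hv : ⟪p, v⟫ = 0) (w : E n) : curv G₁ p u v (K w) = K (curv G₁ p u v w) := by
  have hpn : ‖p‖ = 1 := by simpa [bM] using hp
  have hp0 : p ≠ 0 := by intro h; simp [h] at hpn
  have hpp : pr p = p := pr_of_mem hpn
  have t1 := (Th_contDiffAt h₁ hp).differentiableAt (by simp)
  have t2 := (Th_contDiffAt h₂ hp).differentiableAt (by simp)
  have ne : ∀ᶠ x : E n in 𝓝 p, x ≠ 0 := isOpen_ne.mem_nhds hp0
  -- `F` intertwines the curvatures
  have a1 : ContDiffAt ℝ 2 (fun x => Fb G₁ G₂ (pr x)) p := by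
    have : ContDiffAt ℝ ∞ (Fb G₁ G₂) (pr p) := by rw [hpp]; exact Fb_contDiffAt h₁ h₂ hp
    exact (this.comp p (pr_contDiffAt hp0)).of_le two_le
  have a2 := intertwine a1 t1 t2 (by
    filter_upwards [ne] with x hx k
    rw [comp_pr hx ((Fb_contDiffAt h₁ h₂ (pr_mem hx)).differentiableAt (by simp))]
    ext1 z
    have := hF (pr x) (pr_mem hx) (fderiv ℝ pr x k) (pr_tangent hx k) z
    show fderiv ℝ (Fb G₁ G₂) (pr x) (fderiv ℝ pr x k) z =
      Fb G₁ G₂ (pr x) (chr G₁ (pr x) (fderiv ℝ pr x k) z) -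
      chr G₂ (pr x) (fderiv ℝ pr x k) (Fb G₁ G₂ (pr x) z)
    rw [← this]
    abel) u v
  rw [Th_curv h₁ hp hu hv, Th_curv h₂ hp hu hv, hpp] at a2
  -- `J₂` commutes with the curvature
  have b1 : ContDiffAt ℝ 2 (fun x => J₂ (pr x)) p :=
    (s₂.contDiffAt.comp p (pr_contDiffAt hp0)).of_le two_le
  have b2 := intertwine b1 t2 t2 (by
    filter_upwards [ne] with x hx k
    rw [comp_pr hx (s₂.differentiable (by simp) _)]
    ext1 z
    have := p₂ (pr x) (bM_sub_M (pr_mem hx)) (fderiv ℝ pr x k) z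
    show fderiv ℝ J₂ (pr x) (fderiv ℝ pr x k) z =
      J₂ (pr x) (chr G₂ (pr x) (fderiv ℝ pr x k) z) -
      chr G₂ (pr x) (fderiv ℝ pr x k) (J₂ (pr x) z)
    rw [← this]
    abel) u v
  rw [Th_curv h₂ hp hu hv, hpp] at b2
  have a3 : ∀ z, Fb G₁ G₂ p (curv G₁ p u v z) = curv G₂ p u v (Fb G₁ G₂ p z) := fun z =>
    congrArg (fun L : E n →L[ℝ] E n => L z) a2
  have b3 : ∀ z, J₂ p (curv G₂ p u v z) = curv G₂ p u v (J₂ p z) := fun z =>
    congrArg (fun L : E n →L[ℝ] E n => L z) b2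
  have c1 : Fb G₁ G₂ p (curv G₁ p u v (K w)) = Fb G₁ G₂ p (K (curv G₁ p u v w)) := by
    rw [a3, hK, ← b3, ← a3, ← hK]
  have c2 := congrArg (Fb G₂ G₁ p) c1
  rwa [Fb_left h₁ h₂ hp, Fb_left h₁ h₂ hp] at c2

end KBR
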