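import Pool.Agent.helper21.KBR3.Chart
import Pool.Agent.helper16.KBR3.CurvComm
import Pool.Agent.helper22.KBR3.KahlerPar

/-!
# MODULE S1 (`curv_symm`): symmetries of the curvature of a Kähler metric, up to the boundary
(MP_07cd05_gt, KahlerDomains)
-/

noncomputable section

namespace KBR

open Set MeasureTheory Filter Topology
open scoped ContDiff RealInnerProductSpace

variable {n m : ℕ}

namespace CS

/-- two functions which are continuous at `p ∈ M` and agree in the interior agree at `p` -/
lemma eq_of_ball {W : Type*} [TopologicalSpace W] [T2Space W] {f g : E n → W} {p : E n}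
    (hp : p ∈ M n) (hf : ContinuousAt f p) (hg : ContinuousAt g p)
    (h : ∀ x ∈ Metric.ball (0 : E n) 1, f x = g x) : f p = g p := by
  have hcl : p ∈ closure (Metric.ball (0 : E n) 1) := by
    rw [closure_ball (0 : E n) one_ne_zero]; exact hp
  have : (𝓝[Metric.ball (0 : E n) 1] p).NeBot := mem_closure_iff_nhdsWithin_neBot.1 hcl
  have h1 : Tendsto f (𝓝[Metric.ball (0 : E n) 1] p) (𝓝 (f p)) := hf.mono_left nhdsWithin_le_nhds
  have h2 : Tendsto g (𝓝[Metric.ball (0 : E n) 1] p) (𝓝 (g p)) := hg.mono_left nhdsWithin_le_nhds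
  refine tendsto_nhds_unique h1 (h2.congr' ?_)
  filter_upwards [self_mem_nhdsWithin] with x hx using (h x hx).symm

lemma ball_M {x : E n} (hx : x ∈ Metric.ball (0 : E n) 1) : x ∈ M n :=
  Metric.ball_subset_closedBall hx

/-- symmetry of the derivative of the metric -/
lemma dG_symm {G : E n → E n →L[ℝ] E n} (hG : IsMetric G) {x : E n} (hx : x ∈ M n)
    (u v w : E n) : ⟪fderiv ℝ G x u v, w⟫ = ⟪fderiv ℝ G x u w, v⟫ := by
  have dG : HasFDerivAt G (fderiv ℝ G x) x := (hG.smooth.differentiable (by simp) x).hasFDerivAt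
  have h1 : ∀ v w, HasFDerivAt (fun y => ⟪G y v, w⟫)
      ((innerSL ℝ w).comp ((ContinuousLinearMap.apply ℝ (E n) v).comp (fderiv ℝ G x))) x := by
    intro v w
    have a2 := ((innerSL ℝ w).comp (ContinuousLinearMap.apply ℝ (E n) v)).hasFDerivAt.comp x dG
    refine a2.congr_of_eventuallyEq (Filter.Eventually.of_forall fun y => ?_)
    simp [real_inner_comm]
  have h2 := KPar.fderiv_eq_of_eqOn hx (h1 v w) (h1 w v) fun y hy => hG.symm y hy v w
  have h4 := congrArg (fun A : E n →L[ℝ] ℝ => A u) h2
  simp only [ContinuousLinearMap.comp_apply, innerSL_apply_apply,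
    ContinuousLinearMap.apply_apply] at h4
  rw [real_inner_comm, h4, real_inner_comm]

/-- the Levi-Civita connection is torsion free -/
lemma chr_symm {G : E n → E n →L[ℝ] E n} (hG : IsMetric G) {x : E n} (hx : x ∈ M n)
    (u v : E n) : chr G x u v = chr G x v u := by
  have h : G x (chr G x u v) = G x (chr G x v u) := by
    refine ext_inner_right ℝ fun w => ?_
    rw [chr_inner hG hx, chr_inner hG hx, dG_symm hG hx w u v]
    ring
  have := congrArg (G x).inverse h
  rwa [hG.inv_apply hx, hG.inv_apply hx] at this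

/-- the Levi-Civita connection is metric -/
lemma chr_metric {G : E n → E n →L[ℝ] E n} (hG : IsMetric G) {x : E n} (hx : x ∈ M n)
    (u v w : E n) : ⟪fderiv ℝ G x u v, w⟫ = ⟪G x (chr G x u v), w⟫ + ⟪G x v, chr G x u w⟫ := by
  rw [hG.symm x hx v, chr_inner hG hx, chr_inner hG hx, dG_symm hG hx u w v,
    dG_symm hG hx v u w]
  ring

/-- the curvature in terms of `chrL` -/
lemma curv_eq {G : E n → E n →L[ℝ] E n} (hG : IsMetric G) {x : E n} (hx : x ∈ M n)
    (u v : E n) : curv G x u v = fderiv ℝ (CC.chrL G) x u v - fderiv ℝ (CC.chrL G) x v u +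
      (CC.chrL G x u * CC.chrL G x v - CC.chrL G x v * CC.chrL G x u) := by
  have h0 : DifferentiableAt ℝ (CC.chrL G) x :=
    (CC.chrL_contDiffAt hG hx).differentiableAt (by simp)
  have hc : ∀ a b : E n, fderiv ℝ (fun y => chr G y b) x a = fderiv ℝ (CC.chrL G) x a b := by
    intro a b
    have e1 : HasFDerivAt (fun x => CC.chrL G x b) _ x :=
      h0.hasFDerivAt.clm_apply (hasFDerivAt_const b x)
    have e2 : fderiv ℝ (fun x => CC.chrL G x b) x = _ := e1.fderiv
    show fderiv ℝ (fun x => CC.chrL G x b) x a = _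
    rw [e2]
    simp
  rw [curv, hc, hc]
  simp only [ContinuousLinearMap.mul_def, CC.chrL_apply]
  abel

lemma aux_cont {V A : Type*} [NormedAddCommGroup V] [NormedSpace ℝ V] [NormedAddCommGroup A]
    [NormedSpace ℝ A] {Θ : V → V →L[ℝ] A} {p : V} (h : ContDiffAt ℝ ∞ Θ p) (u v : V) :
    ContinuousAt (fun x => fderiv ℝ Θ x u v) p := by
  have h2 : ContinuousAt (fderiv ℝ Θ) p := (h.fderiv_right (m := ∞) (by simp)).continuousAt
  exact (h2.clm_apply continuousAt_const).clm_apply continuousAt_const

lemma aux_fderiv {V A B : Type*} [NormedAddCommGroup V] [NormedSpace ℝ V] [NormedAddCommGroup A]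
    [NormedSpace ℝ A] [NormedAddCommGroup B] [NormedSpace ℝ B] (L : A →L[ℝ] B)
    {Θ : V → V →L[ℝ] A} {p : V} (h : DifferentiableAt ℝ Θ p) :
    HasFDerivAt (fun y => -(L.comp (Θ y)))
      (-(((ContinuousLinearMap.compL ℝ V A B) L).comp (fderiv ℝ Θ p))) p :=
  (((ContinuousLinearMap.compL ℝ V A B) L).hasFDerivAt.comp p h.hasFDerivAt).neg

lemma aux_eval {V A : Type*} [NormedAddCommGroup V] [NormedSpace ℝ V] [NormedAddCommGroup A]
    [NormedSpace ℝ A] {Θ : V → V →L[ℝ] (V →L[ℝ] A)} {p : V} (h : DifferentiableAt ℝ Θ p)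
    (b c : V) : HasFDerivAt (fun y => Θ y b c)
      ((ContinuousLinearMap.apply ℝ A c).comp
        ((ContinuousLinearMap.apply ℝ (V →L[ℝ] A) b).comp (fderiv ℝ Θ p))) p := by
  have h1 := (h.hasFDerivAt.clm_apply (hasFDerivAt_const b p)).clm_apply (hasFDerivAt_const c p)
  refine h1.congr_fderiv ?_
  ext z
  simp

lemma curv_continuousAt {G : E n → E n →L[ℝ] E n} (hG : IsMetric G) {p : E n} (hp : p ∈ M n)
    (u v : E n) : ContinuousAt (fun x => fderiv ℝ (CC.chrL G) x u v -
      fderiv ℝ (CC.chrL G) x v u +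
      (CC.chrL G x u * CC.chrL G x v - CC.chrL G x v * CC.chrL G x u)) p := by
  have h0 := CC.chrL_contDiffAt hG hp
  have h1 : ContinuousAt (CC.chrL G) p := h0.continuousAt
  have h3 : ∀ a, ContinuousAt (fun x => CC.chrL G x a) p := fun a => h1.clm_apply continuousAt_const
  have h4 : ∀ a b, ContinuousAt (fun x => fderiv ℝ (CC.chrL G) x a b) p := fun a b =>
    aux_cont h0 a b
  exact ((h4 u v).sub (h4 v u)).add (((h3 u).mul (h3 v)).sub ((h3 v).mul (h3 u)))

/-- an intertwining relation on `M` intertwines the curvature, up to the boundary -/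
lemma J_comm {G J : E n → E n →L[ℝ] E n} (hG : IsMetric G) (hJ : ContDiff ℝ ∞ J) (hP : Par G J)
    {p : E n} (hp : p ∈ M n) (u v w : E n) :
    curv G p u v (J p w) = J p (curv G p u v w) := by
  have key : ∀ x ∈ Metric.ball (0 : E n) 1,
      J x * (fderiv ℝ (CC.chrL G) x u v - fderiv ℝ (CC.chrL G) x v u +
        (CC.chrL G x u * CC.chrL G x v - CC.chrL G x v * CC.chrL G x u)) =
      (fderiv ℝ (CC.chrL G) x u v - fderiv ℝ (CC.chrL G) x v u +
        (CC.chrL G x u * CC.chrL G x v - CC.chrL G x v * CC.chrL G x u)) * J x := by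
    intro x hx
    have t := (CC.chrL_contDiffAt hG (ball_M hx)).differentiableAt (by simp)
    refine CC.intertwine (hJ.contDiffAt.of_le CC.two_le) t t ?_ u v
    filter_upwards [Metric.isOpen_ball.mem_nhds hx] with y hy k
    ext1 z
    have := hP y (ball_M hy) k z
    show fderiv ℝ J y k z = J y (chr G y k z) - chr G y k (J y z)
    rw [← this]
    abel
  have hJc : ContinuousAt J p := hJ.continuous.continuousAt
  have h := eq_of_ball hp (hJc.mul (curv_continuousAt hG hp u v))
    ((curv_continuousAt hG hp u v).mul hJc) key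
  simp only [Pi.mul_apply] at h
  rw [← curv_eq hG hp] at h
  exact (congrArg (fun A : E n →L[ℝ] E n => A w) h).symm

lemma metric_comm {G : E n → E n →L[ℝ] E n} (hG : IsMetric G)
    {p : E n} (hp : p ∈ M n) (u v w z : E n) :
    ⟪G p (curv G p u v w), z⟫ = -⟪G p w, curv G p u v z⟫ := by
  have key : ∀ x ∈ Metric.ball (0 : E n) 1,
      G x * (fderiv ℝ (CC.chrL G) x u v - fderiv ℝ (CC.chrL G) x v u +
        (CC.chrL G x u * CC.chrL G x v - CC.chrL G x v * CC.chrL G x u)) =
      (-adjL n (fderiv ℝ (CC.chrL G) x u v - fderiv ℝ (CC.chrL G) x v u +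
        (CC.chrL G x u * CC.chrL G x v - CC.chrL G x v * CC.chrL G x u))) * G x := by
    intro x hx
    have t := (CC.chrL_contDiffAt hG (ball_M hx)).differentiableAt (by simp)
    have t' : HasFDerivAt (fun y => -((adjL n).comp (CC.chrL G y)))
        (-(((ContinuousLinearMap.compL ℝ (E n) (E n →L[ℝ] E n) (E n →L[ℝ] E n)) (adjL n)).comp
          (fderiv ℝ (CC.chrL G) x))) x := aux_fderiv (adjL n) t
    have h := CC.intertwine (X := G) (Θ₁ := CC.chrL G)
      (Θ₂ := fun y => -((adjL n).comp (CC.chrL G y))) (hG.smooth.contDiffAt.of_le CC.two_le) t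
      t'.differentiableAt (by
        filter_upwards [Metric.isOpen_ball.mem_nhds hx] with y hy k
        ext1 z
        refine ext_inner_right ℝ fun w => ?_
        have := chr_metric hG (ball_M hy) k z w
        rw [this]
        simp only [ContinuousLinearMap.mul_def, neg_apply, sub_apply,
          ContinuousLinearMap.comp_apply, sub_neg_eq_add,
          CC.chrL_apply, adjL_apply, inner_add_left, ContinuousLinearMap.adjoint_inner_left]) u v
    rw [h, t'.fderiv]
    congr 1
    have hm : ∀ A B : E n →L[ℝ] E n, adjL n (A * B) = adjL n B * adjL n A := fun A B => by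
      simp [adjL_apply, ContinuousLinearMap.mul_def, ContinuousLinearMap.adjoint_comp]
    rw [map_add, map_sub, map_sub, hm, hm]
    ext1 z
    simp only [neg_apply, add_apply, sub_apply, ContinuousLinearMap.comp_apply,
      ContinuousLinearMap.compL_apply, ContinuousLinearMap.mul_def, map_neg, neg_neg]
    abel
  have hGc : ContinuousAt G p := hG.smooth.continuous.continuousAt
  have hc := curv_continuousAt hG hp u v
  have h := eq_of_ball hp (hGc.mul hc)
    ((((adjL n).continuous.continuousAt).comp hc).neg.mul hGc) key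
  simp only [Pi.mul_apply, Pi.neg_apply, Function.comp_apply] at h
  rw [← curv_eq hG hp] at h
  have h2 := congrArg (fun A : E n →L[ℝ] E n => ⟪A w, z⟫) h
  simp only [ContinuousLinearMap.mul_def, ContinuousLinearMap.comp_apply, neg_apply,
    adjL_apply, inner_neg_left, ContinuousLinearMap.adjoint_inner_left] at h2
  exact h2

lemma bianchi {G : E n → E n →L[ℝ] E n} (hG : IsMetric G)
    {p : E n} (hp : p ∈ M n) (u v w : E n) :
    curv G p u v w + curv G p v w u + curv G p w u v = 0 := by
  have h0 : DifferentiableAt ℝ (CC.chrL G) p :=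
    (CC.chrL_contDiffAt hG hp).differentiableAt (by simp)
  have hd : ∀ a b c : E n, fderiv ℝ (CC.chrL G) p a b c = fderiv ℝ (CC.chrL G) p a c b := by
    intro a b c
    have e1 : ∀ b c : E n, HasFDerivAt (fun y => CC.chrL G y b c)
        ((ContinuousLinearMap.apply ℝ (E n) c).comp
          ((ContinuousLinearMap.apply ℝ (E n →L[ℝ] E n) b).comp (fderiv ℝ (CC.chrL G) p))) p := by
      intro b c
      exact aux_eval h0 b c
    have e2 := KPar.fderiv_eq_of_eqOn hp (e1 b c) (e1 c b) fun y hy => chr_symm hG hy b c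
    have e3 := congrArg (fun A : E n →L[ℝ] E n => A a) e2
    simpa using e3
  have hs : ∀ a b : E n, CC.chrL G p a b = CC.chrL G p b a := fun a b => chr_symm hG hp a b
  rw [curv_eq hG hp, curv_eq hG hp, curv_eq hG hp]
  simp only [ContinuousLinearMap.mul_def, sub_apply, add_apply, ContinuousLinearMap.comp_apply]
  rw [hd v w u, hd w u v, hd u v w, hs w u, hs v w, hs u v]
  abel

end CS

open CS in
/-- MODULE S1.  Symmetries of the curvature of a Kähler metric, up to the boundary. -/
theorem curv_symm {G J : E n → E n →L[ℝ] E n} (hK : IsAlmostKahler G J) (hP : Par G J)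
    {p : E n} (hp : p ∈ M n) :
    (∀ u v w z, ⟪G p (curv G p u v w), z⟫ = -⟪G p w, curv G p u v z⟫) ∧
    (∀ u v w, curv G p u v w + curv G p v w u + curv G p w u v = 0) ∧
    (∀ u v w, curv G p u v (J p w) = J p (curv G p u v w)) ∧
    (∀ u v w z, ⟪G p (curv G p u v w), z⟫ = ⟪G p (curv G p w z u), v⟫) ∧
    (∀ u v w, curv G p (J p u) (J p v) w = curv G p u v w) := by
  have hG := hK.metric
  have a := fun u v w z => metric_comm hG hp u v w z
  have b := fun u v w => bianchi hG hp u v w
  have c := fun u v w => J_comm hG hK.smoothJ hP hp u v w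
  have anti : ∀ u v w, curv G p u v w = - curv G p v u w := by
    intro u v w
    rw [curv_eq hG hp, curv_eq hG hp]
    simp only [ContinuousLinearMap.mul_def, sub_apply, add_apply, ContinuousLinearMap.comp_apply]
    abel
  have d : ∀ u v w z, ⟪G p (curv G p u v w), z⟫ = ⟪G p (curv G p w z u), v⟫ := by
    have q1 : ∀ u v w z, ⟪G p (curv G p u v w), z⟫ = -⟪G p (curv G p v u w), z⟫ := by
      intro u v w z
      rw [anti u v w, map_neg, inner_neg_left]
    have q2 : ∀ u v w z, ⟪G p (curv G p u v w), z⟫ = -⟪G p (curv G p u v z), w⟫ := by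
      intro u v w z
      rw [a u v w z, hG.symm p hp w]
    have q3 : ∀ u v w z, ⟪G p (curv G p u v w), z⟫ + ⟪G p (curv G p v w u), z⟫ +
        ⟪G p (curv G p w u v), z⟫ = 0 := by
      intro u v w z
      rw [← inner_add_left, ← inner_add_left, ← map_add, ← map_add, b u v w, map_zero,
        inner_zero_left]
    intro u v w z
    have r1 := q3 u v w z
    have r2 := q3 v w z u
    have r3 := q3 w z u v
    have r4 := q3 z u v w
    have s1 := q1 u v w z
    have s2 := q2 u v w z
    have s3 := q1 v w u z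
    have s4 := q2 v w u z
    have s5 := q1 w u v z
    have s6 := q2 w u v z
    have s7 := q1 w z v u
    have s8 := q2 w z v u
    have s9 := q1 z v w u
    have s10 := q2 z v w u
    have s11 := q1 u w z v
    have s12 := q2 u w z v
    have s13 := q1 z u w v
    have s14 := q2 z u w v
    have s15 := q1 u v z w
    have s16 := q2 u v z w
    have s17 := q1 v z u w
    have s18 := q2 v z u w
    have s19 := q1 v z w u
    have s20 := q2 v z w u
    have s21 := q1 v w z u
    have s22 := q2 v w z u
    have s23 := q1 w z u v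
    have s24 := q2 w z u v
    have s25 := q1 z u v w
    have s26 := q2 z u v w
    linarith
  refine ⟨a, b, c, d, fun u v w => ?_⟩
  have h : G p (curv G p (J p u) (J p v) w) = G p (curv G p u v w) := by
    refine ext_inner_right ℝ fun z => ?_
    rw [d (J p u) (J p v) w z, c w z u, hK.inv p hp, ← d u v w z]
  have := congrArg (G p).inverse h
  rwa [hG.inv_apply hp, hG.inv_apply hp] at this

end KBR
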