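import Pool.Agent.helper21.KBR3.Chart

/-!
# MODULE C1 (`ext_chart`) of the Kähler domains project (MP_07cd05_gt)
-/

noncomputable section

namespace KBR

open Set MeasureTheory Filter Topology
open scoped ContDiff RealInnerProductSpace Manifold

variable {n m : ℕ}

namespace EC

/-- a linear isomorphism from an injective linear map between spaces of the same dimension -/
lemma exists_equiv (hnm : n = 2 * m) (A : E n →L[ℝ] Cn m) (h : ∀ v, A v = 0 → v = 0) :
    ∃ e : E n ≃L[ℝ] Cn m, (e : E n →L[ℝ] Cn m) = A := by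
  have hinj : Function.Injective (A : E n →ₗ[ℝ] Cn m) := by
    rw [injective_iff_map_eq_zero]
    exact h
  have hd : Module.finrank ℝ (E n) = Module.finrank ℝ (Cn m) := by
    rw [finrank_euclideanSpace_fin, Module.finrank_pi_fintype]
    simp [Complex.finrank_real_complex, hnm, mul_comm]
  refine ⟨(LinearMap.linearEquivOfInjective (A : E n →ₗ[ℝ] Cn m) hinj hd).toContinuousLinearEquiv,
    ?_⟩
  ext v
  rfl

/-- points where the derivative is invertible -/
def inv (Φ : E n → Cn m) : Set (E n) :=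
  {x | fderiv ℝ Φ x ∈ range ((↑) : (E n ≃L[ℝ] Cn m) → (E n →L[ℝ] Cn m))}

lemma inv_open {Φ : E n → Cn m} (hs : ContDiff ℝ ∞ Φ) : IsOpen (inv Φ) := by
  have h1 : Continuous (fderiv ℝ Φ) := hs.continuous_fderiv (by simp)
  exact (ContinuousLinearEquiv.isOpen (𝕜 := ℝ) (E := E n) (F := Cn m)).preimage h1

variable {Φ : E n → Cn m}

lemma strict (hs : ContDiff ℝ ∞ Φ) {x : E n} {e : E n ≃L[ℝ] Cn m}
    (he : (e : E n →L[ℝ] Cn m) = fderiv ℝ Φ x) : HasStrictFDerivAt Φ (e : E n →L[ℝ] Cn m) x := by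
  rw [he]
  exact hs.contDiffAt.hasStrictFDerivAt (by simp)

/-- `Φ` is locally injective at points with invertible derivative -/
lemma loc_inj (hs : ContDiff ℝ ∞ Φ) {x : E n} (hx : x ∈ inv Φ) :
    ∃ U ∈ 𝓝 x, InjOn Φ U := by
  obtain ⟨e, he⟩ := hx
  have h1 := strict hs he
  refine ⟨(h1.toOpenPartialHomeomorph Φ).source,
    (h1.toOpenPartialHomeomorph Φ).open_source.mem_nhds h1.mem_toOpenPartialHomeomorph_source, ?_⟩
  have := (h1.toOpenPartialHomeomorph Φ).injOn
  exact this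

/-- the image of a neighbourhood is a neighbourhood -/
lemma image_nhds (hs : ContDiff ℝ ∞ Φ) {x : E n} (hx : x ∈ inv Φ) {U : Set (E n)} (hU : U ∈ 𝓝 x) :
    Φ '' U ∈ 𝓝 (Φ x) := by
  obtain ⟨e, he⟩ := hx
  rw [← (strict hs he).map_nhds_eq_of_equiv]
  exact image_mem_map hU

lemma exists_ball (hinj : InjOn Φ (M n)) (hs : ContDiff ℝ ∞ Φ) (hM : M n ⊆ inv Φ) :
    ∃ δ > 0, InjOn Φ (Metric.ball (0 : E n) (1 + δ)) ∧ Metric.ball (0 : E n) (1 + δ) ⊆ inv Φ := by
  have hc : IsCompact (M n) := isCompact_closedBall 0 1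
  set T : Set (E n × E n) := {z | Φ z.1 = Φ z.2 → z.1 = z.2} with hT
  have h1 : M n ×ˢ M n ⊆ interior T := by
    rintro ⟨x, y⟩ ⟨hx, hy⟩
    rw [mem_interior_iff_mem_nhds]
    by_cases hxy : Φ x = Φ y
    · have h2 : x = y := hinj hx hy hxy
      subst h2
      obtain ⟨U, hU, hUi⟩ := loc_inj hs (hM hx)
      filter_upwards [prod_mem_nhds hU hU] with z hz hz'
      exact hUi hz.1 hz.2 hz'
    · have h3 : IsOpen {z : E n × E n | Φ z.1 ≠ Φ z.2} :=
        isOpen_ne_fun (hs.continuous.comp continuous_fst) (hs.continuous.comp continuous_snd)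
      filter_upwards [h3.mem_nhds (show Φ x ≠ Φ y from hxy)] with z hz hz'
      exact absurd hz' hz
  obtain ⟨u, v, hu, hv, hMu, hMv, huv⟩ := generalized_tube_lemma hc hc isOpen_interior h1
  obtain ⟨δ, hδ, hδs⟩ := hc.exists_thickening_subset_open ((hu.inter hv).inter (inv_open hs))
    (subset_inter (subset_inter hMu hMv) hM)
  rw [M, thickening_closedBall hδ zero_le_one, add_comm] at hδs
  refine ⟨δ, hδ, fun x hx y hy hxy => ?_, fun x hx => (hδs hx).2⟩
  exact interior_subset (huv (mk_mem_prod (hδs hx).1.1 (hδs hy).1.2)) hxy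

end EC

open EC in
/-- MODULE C1 (`ext_chart`): an embedding of the closed ball extends to a larger ball. -/
theorem ext_chart (hnm : n = 2 * m) {Φ : E n → Cn m} (hs : ContDiff ℝ ∞ Φ)
    (hinj : InjOn Φ (M n)) (himm : ∀ x ∈ M n, ∀ v, fderiv ℝ Φ x v = 0 → v = 0) :
    ∃ R δ, ExtChart Φ R δ := by
  have hM : M n ⊆ inv Φ := fun x hx => exists_equiv hnm _ (himm x hx)
  obtain ⟨δ₀, hδ₀, hi, hB⟩ := exists_ball hinj hs hM
  set B : Set (E n) := Metric.ball (0 : E n) (1 + δ₀) with hBdef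
  have hBo : IsOpen B := Metric.isOpen_ball
  have hopen : ∀ U ⊆ B, IsOpen U → IsOpen (Φ '' U) := by
    intro U hUB hU
    rw [isOpen_iff_mem_nhds]
    rintro _ ⟨x, hx, rfl⟩
    exact image_nhds hs (hB (hUB hx)) (hU.mem_nhds hx)
  -- the inverse on the image
  set R₀ : Cn m → E n := Function.invFunOn Φ B with hR₀
  have hleft : ∀ x ∈ B, R₀ (Φ x) = x := fun x hx => hi.leftInvOn_invFunOn hx
  have hsmooth : ∀ z ∈ Φ '' B, ContDiffAt ℝ ∞ R₀ z := by
    rintro _ ⟨x, hx, rfl⟩
    obtain ⟨e, he⟩ := hB hx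
    have hs' : ContDiffAt ℝ ∞ Φ x := hs.contDiffAt
    have hd : HasFDerivAt Φ (e : E n →L[ℝ] Cn m) x := (strict hs he).hasFDerivAt
    have h1 := hs'.to_localInverse hd (by simp)
    refine h1.congr_of_eventuallyEq ?_
    have h2 : ∀ᶠ z in 𝓝 (Φ x), Φ (hs'.localInverse hd (by simp) z) = z :=
      (strict hs he).eventually_right_inverse
    have h3 : ∀ᶠ z in 𝓝 (Φ x), hs'.localInverse hd (by simp) z ∈ B := by
      have h4 := h1.continuousAt
      refine h4.eventually_mem ?_
      rw [hs'.localInverse_apply_image hd (by simp)]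
      exact hBo.mem_nhds hx
    filter_upwards [h2, h3] with z hz hz'
    conv_lhs => rw [← hz]
    exact hleft _ hz'
  -- cutoff
  set δ := δ₀ / 3 with hδ
  have hsub : ∀ r, r < 1 + δ₀ → Metric.closedBall (0 : E n) r ⊆ B := fun r hr =>
    Metric.closedBall_subset_ball hr
  set K : Set (Cn m) := Φ '' Metric.closedBall (0 : E n) (1 + δ) with hK
  have hKc : IsCompact K := (isCompact_closedBall 0 _).image hs.continuous
  set K' : Set (Cn m) := Φ '' Metric.closedBall (0 : E n) (1 + 2 * δ) with hK'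
  have hK'c : IsCompact K' := (isCompact_closedBall 0 _).image hs.continuous
  have hKK' : K ⊆ interior K' := by
    have h1 : IsOpen (Φ '' Metric.ball (0 : E n) (1 + 2 * δ)) :=
      hopen _ (Metric.ball_subset_ball (by linarith)) Metric.isOpen_ball
    refine Subset.trans ?_ (interior_maximal (image_mono Metric.ball_subset_closedBall) h1)
    exact image_mono (Metric.closedBall_subset_ball (by linarith))
  obtain ⟨χ, hχ1, hχ0, -⟩ := exists_contMDiffMap_one_nhds_of_subset_interior (n := (⊤ : ℕ∞))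
    (𝓘(ℝ, Cn m)) hKc.isClosed hKK'
  have hχs : ContDiff ℝ ∞ χ := χ.contMDiff.contDiff
  have hχK : ∀ z ∈ K, χ z = 1 := fun z hz => hχ1.self_of_nhdsSet z hz
  refine ⟨fun z => χ z • R₀ z, δ, hs, ?_, by positivity, ?_, ?_⟩
  · rw [contDiff_iff_contDiffAt]
    intro z
    by_cases hz : z ∈ Φ '' B
    · exact hχs.contDiffAt.smul (hsmooth z hz)
    · have h1 : z ∉ K' := fun h => hz (image_mono (hsub _ (by linarith)) h)
      have h2 : (fun z => χ z • R₀ z) =ᶠ[𝓝 z] fun _ => 0 := by
        filter_upwards [hK'c.isClosed.isOpen_compl.mem_nhds h1] with y hy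
        rw [hχ0 y hy, zero_smul]
      exact contDiffAt_const.congr_of_eventuallyEq h2
  · intro x hx
    have h1 : x ∈ Metric.closedBall (0 : E n) (1 + δ) := Metric.ball_subset_closedBall hx
    show χ (Φ x) • R₀ (Φ x) = x
    rw [hχK _ (mem_image_of_mem _ h1), one_smul]
    exact hleft x (hsub _ (by linarith) h1)
  · exact hopen _ (Metric.ball_subset_ball (by linarith)) Metric.isOpen_ball

end KBR
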